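import Pool.Agent.Helper78.TW.T5

/-!
# TOWERS, T5: literal frames T5a and T5b
-/

set_option autoImplicit false

namespace Pool.Agent.Helper78.TW

open TensorProduct
open Pool.Agent.Helper35.BR (HomRing cd)

section Hom

variable {K : Type} [Field K] {R : Type} [CommRing R] [IsDomain R] [Algebra K R] {r : ℕ}
    (A : Fin r → Type) [∀ i, Ring (A i)] [∀ i, Algebra R (A i)] [∀ i, Module.Finite R (A i)]
    (m : Fin r → ℕ)

/-- **T5a** the generic part is a domain -/
theorem tors_hom_prime
    (hc : ∀ i, Algebra.IsCentral (FractionRing R) (FractionRing R ⊗[R] A i))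
    (hs : ∀ i, IsSimpleRing (FractionRing R ⊗[R] A i))
    (hm : ∀ i, Module.finrank (FractionRing R) (FractionRing R ⊗[R] A i) = m i ^ 2) :
    (Pool.Agent.Helper65.TW.tors R (HomRing R A m)).IsPrime :=
  tors_prime A m hc hs hm

/-- **T5b** generators -/
theorem hom_gen (G : Finset R) (hG : Algebra.adjoin K (G : Set R) = ⊤) :
    ∃ (N : Fin r → ℕ) (a : ∀ i, Fin (N i) → A i), (∀ i, ∃ s, a i s = 1) ∧
      (∀ i, Submodule.span R (Set.range (a i)) = ⊤) ∧
      Algebra.adjoin K ((algebraMap R (HomRing R A m) '' (G : Set R)) ∪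
        Set.range (fun x : Σ i : Fin r, Fin (N i) × Fin (m i) × Fin (m i) =>
          cd R A m ⟨x.1, a x.1 x.2.1, x.2.2.1, x.2.2.2⟩)) = ⊤ := by
  classical
  choose T0 hT0 using fun i => (Module.Finite.fg_top : (⊤ : Submodule R (A i)).FG)
  let T : ∀ i, Finset (A i) := fun i => insert 1 (T0 i)
  have hT : ∀ i, Submodule.span R (T i : Set (A i)) = ⊤ := by
    intro i
    rw [eq_top_iff, ← hT0 i]
    refine Submodule.span_mono ?_
    rw [Finset.coe_insert]
    exact Set.subset_insert _ _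
  let a : ∀ i, Fin (T i).card → A i := fun i s => ((T i).equivFin.symm s : A i)
  have ha : ∀ i, Set.range (a i) = (T i : Set (A i)) := by
    intro i
    ext x
    constructor
    · rintro ⟨s, rfl⟩
      exact ((T i).equivFin.symm s).2
    · intro hx
      exact ⟨(T i).equivFin ⟨x, hx⟩, by simp [a]⟩
  refine ⟨fun i => (T i).card, a, fun i => ?_, fun i => ?_, ?_⟩
  · have h1 : (1 : A i) ∈ Set.range (a i) := by
      rw [ha i]
      exact Finset.mem_coe.2 (Finset.mem_insert_self _ _)
    exact h1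
  · rw [ha i]
    exact hT i
  · rw [eq_top_iff, ← adjoin_genSet m G hG T hT]
    refine Algebra.adjoin_mono fun x hx => ?_
    rcases (mem_genSet m).1 (Finset.mem_coe.1 hx) with ⟨c, hc, rfl⟩ | ⟨i, b, hb, p, q, rfl⟩
    · exact Or.inl ⟨c, Finset.mem_coe.2 hc, rfl⟩
    · have h1 : b ∈ Set.range (a i) := by
        rw [ha i]
        exact Finset.mem_coe.2 hb
      obtain ⟨s, rfl⟩ := h1
      exact Or.inr ⟨⟨i, s, p, q⟩, rfl⟩

end Hom

end Pool.Agent.Helper78.TW
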