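import Pool.Agent.Helper78.TW.T5

/-!
# TOWERS, Q1: quadric cones of rank at least three are generically integral
-/

set_option autoImplicit false

namespace Pool.Agent.Helper78.TW

open MvPolynomial
open Pool.Agent.Helper65.TW (Gen)

section Field

variable {F : Type} [Field F] {N : ℕ}

/-- the quadratic form as a polynomial -/
noncomputable abbrev qp {R : Type} [CommRing R] {N : ℕ} (q : Matrix (Fin N) (Fin N) R) :
    MvPolynomial (Fin N) R :=
  ∑ j, ∑ k, C (q j k) * X j * X k

theorem eval_lin (A : MvPolynomial (Fin N) F) (hA : A.totalDegree ≤ 1) :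
    ∃ (a0 : F) (a : Fin N → F), ∀ x : Fin N → F, eval x A = a0 + ∑ j, a j * x j := by
  have h1 : homogeneousComponent 0 A + homogeneousComponent 1 A = A := by
    have h := sum_homogeneousComponent A
    rcases Nat.le_one_iff_eq_zero_or_eq_one.1 hA with h0 | h0
    · rw [h0, zero_add, Finset.sum_range_one] at h
      rw [homogeneousComponent_eq_zero 1 A (by omega), add_zero]
      exact h
    · rw [h0, Finset.sum_range_succ, Finset.sum_range_one] at h
      exact h
  have h2 : homogeneousComponent 1 A ∈ Submodule.span F (Set.range (X : Fin N → _)) := by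
    rw [← homogeneousSubmodule_one_eq_span_X]
    exact homogeneousComponent_mem 1 A
  obtain ⟨a, ha⟩ := (Submodule.mem_span_range_iff_exists_fun F).1 h2
  refine ⟨coeff 0 A, a, fun x => ?_⟩
  rw [← h1, homogeneousComponent_zero, ← ha, map_add, eval_C, map_sum, coeff_add, coeff_C,
    if_pos rfl]
  congr 1
  · have h3 : coeff 0 (∑ i, a i • (X i : MvPolynomial (Fin N) F)) = 0 := by
      rw [coeff_sum]
      refine Finset.sum_eq_zero fun i _ => ?_
      rw [coeff_smul, coeff_zero_X, smul_zero]
    rw [h3, add_zero]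
  · refine Finset.sum_congr rfl fun i _ => ?_
    rw [smul_eval, eval_X]

theorem eval_qp (q : Matrix (Fin N) (Fin N) F) (x : Fin N → F) :
    eval x (qp q) = ∑ j, ∑ k, q j k * x j * x k := by
  simp only [map_sum, map_mul, eval_C, eval_X]

/-- polarization at two unit vectors -/
theorem polar (q : Matrix (Fin N) (Fin N) F) (hq : q.IsSymm) (j k : Fin N) :
    eval (Pi.single j 1 + Pi.single k 1) (qp q) - eval (Pi.single j 1) (qp q) -
      eval (Pi.single k 1) (qp q) + eval 0 (qp q) = 2 * q j k := by
  have hb : ∀ x y : Fin N → F, ∑ i, ∑ l, q i l * x i * y l = ∑ i, ∑ l, q i l * y i * x l := by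
    intro x y
    rw [Finset.sum_comm]
    refine Finset.sum_congr rfl fun i _ => Finset.sum_congr rfl fun l _ => ?_
    have h := congrFun (congrFun hq i) l
    rw [Matrix.transpose_apply] at h
    rw [h]
    ring
  have h1 : ∀ x y : Fin N → F, eval (x + y) (qp q) - eval x (qp q) - eval y (qp q) +
      eval 0 (qp q) = 2 * ∑ i, ∑ l, q i l * x i * y l := by
    intro x y
    rw [eval_qp, eval_qp, eval_qp, eval_qp]
    have h0 : ∑ i, ∑ l, q i l * (0 : Fin N → F) i * (0 : Fin N → F) l = 0 := by simp
    rw [h0, add_zero, two_mul]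
    conv_rhs => rw [hb x y]
    have h2 : ∑ i, ∑ l, q i l * (x + y) i * (x + y) l = ∑ i, ∑ l, q i l * x i * x l +
        ∑ i, ∑ l, q i l * y i * y l + (∑ i, ∑ l, q i l * x i * y l +
        ∑ i, ∑ l, q i l * y i * x l) := by
      simp only [← Finset.sum_add_distrib]
      refine Finset.sum_congr rfl fun i _ => Finset.sum_congr rfl fun l _ => ?_
      rw [Pi.add_apply, Pi.add_apply]
      ring
    rw [h2, hb x y]
    ring
  rw [h1]
  congr 1
  rw [Finset.sum_eq_single j, Finset.sum_eq_single k]
  · simp
  · intro l _ hl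
    simp [hl]
  · intro h; exact absurd (Finset.mem_univ k) h
  · intro i _ hi
    simp [hi]
  · intro h; exact absurd (Finset.mem_univ j) h

theorem det_bilin [CharZero F] (q : Matrix (Fin N) (Fin N) F) (a b : Fin N → F)
    (h : ∀ j k, 2 * q j k = a j * b k + a k * b j) (f g : Fin 3 → Fin N) :
    (q.submatrix f g).det = 0 := by
  have h1 : ∀ j k, q j k = (a j * b k + a k * b j) / 2 := fun j k => by
    rw [← h j k]; ring
  rw [Matrix.det_fin_three]
  simp only [Matrix.submatrix_apply, h1]
  ring

theorem qp_isHomogeneous {R : Type} [CommRing R] (q : Matrix (Fin N) (Fin N) R) :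
    (qp q).IsHomogeneous 2 := by
  refine IsHomogeneous.sum _ _ _ fun j _ => IsHomogeneous.sum _ _ _ fun k _ => ?_
  have h := ((isHomogeneous_C (Fin N) (q j k)).mul (isHomogeneous_X R j)).mul
    (isHomogeneous_X R k)
  exact h

/-- **a quadratic form of rank at least three is irreducible** -/
theorem qp_irreducible [CharZero F] (q : Matrix (Fin N) (Fin N) F) (hq : q.IsSymm)
    (h3 : ∃ f g : Fin 3 → Fin N, (q.submatrix f g).det ≠ 0) : Irreducible (qp q) := by
  obtain ⟨f, g, hfg⟩ := h3
  have hQ0 : qp q ≠ 0 := by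
    intro h0
    refine hfg (det_bilin q 0 0 (fun j k => ?_) f g)
    have h1 := polar q hq j k
    rw [h0] at h1
    rw [← h1]
    simp
  have hdeg : (qp q).totalDegree = 2 := (qp_isHomogeneous q).totalDegree hQ0
  constructor
  · intro hu
    have h1 := (isUnit_iff_totalDegree_of_isReduced.1 hu).2
    omega
  · intro A B hAB
    have hA0 : A ≠ 0 := by
      rintro rfl
      rw [zero_mul] at hAB
      exact hQ0 hAB
    have hB0 : B ≠ 0 := by
      rintro rfl
      rw [mul_zero] at hAB
      exact hQ0 hAB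
    have hd : A.totalDegree + B.totalDegree = 2 := by
      rw [← totalDegree_mul_of_isDomain hA0 hB0, ← hAB, hdeg]
    have hunit : ∀ P : MvPolynomial (Fin N) F, P ≠ 0 → P.totalDegree = 0 → IsUnit P := by
      intro P hP h
      rw [totalDegree_eq_zero_iff_eq_C] at h
      rw [h]
      refine (IsUnit.mk0 _ fun h0 => hP ?_).map C
      rw [h, h0, C_0]
    by_cases h1 : A.totalDegree = 0
    · exact Or.inl (hunit A hA0 h1)
    by_cases h2 : B.totalDegree = 0
    · exact Or.inr (hunit B hB0 h2)
    exfalso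
    obtain ⟨a0, a, ha⟩ := eval_lin A (by omega)
    obtain ⟨b0, b, hb⟩ := eval_lin B (by omega)
    refine hfg (det_bilin q a b (fun j k => ?_) f g)
    have hs : ∀ (c : Fin N → F) (i : Fin N), ∑ l, c l * (Pi.single i (1 : F) : Fin N → F) l =
        c i := by
      intro c i
      rw [Finset.sum_eq_single i]
      · simp
      · intro l _ hl
        simp [hl]
      · intro h; exact absurd (Finset.mem_univ i) h
    have hs2 : ∀ (c : Fin N → F) (i l : Fin N),
        ∑ t, c t * ((Pi.single i (1 : F) : Fin N → F) + (Pi.single l (1 : F) : Fin N → F)) t =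
        c i + c l := by
      intro c i l
      simp only [Pi.add_apply, mul_add, Finset.sum_add_distrib, hs]
    have hs0 : ∀ c : Fin N → F, ∑ t, c t * (0 : Fin N → F) t = 0 := by
      intro c
      simp
    rw [← polar q hq j k, hAB]
    simp only [map_mul, ha, hb, hs, hs2, hs0]
    ring

theorem qp_prime [CharZero F] (q : Matrix (Fin N) (Fin N) F) (hq : q.IsSymm)
    (h3 : ∃ f g : Fin 3 → Fin N, (q.submatrix f g).det ≠ 0) :
    (Ideal.span {qp q}).IsPrime := by
  have h := qp_irreducible q hq h3
  exact (Ideal.span_singleton_prime h.ne_zero).2 h.prime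

end Field

section Ring

variable {R : Type} [CommRing R] [IsDomain R] [CharZero R] {N : ℕ}

theorem map_qp {R S : Type} [CommRing R] [CommRing S] {N : ℕ} (φ : R →+* S)
    (q : Matrix (Fin N) (Fin N) R) : map φ (qp q) = qp (q.map φ) := by
  simp only [map_sum, map_mul, map_C, map_X]
  rfl

/-- **the torsion ideal of a quadric cone is the kernel of a map to a domain** -/
theorem quad_exists_generic (q : Matrix (Fin N) (Fin N) R) (hq : q.IsSymm)
    (h3 : ∃ f g : Fin 3 → Fin N, (q.submatrix f g).det ≠ 0) :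
    ∃ (P : Type) (_ : CommRing P) (_ : IsDomain P)
      (χ : (MvPolynomial (Fin N) R ⧸ Ideal.span {qp q}) →+* P),
      (∀ c, χ (algebraMap R _ c) = 0 → c = 0) ∧
      ∀ g, g ∈ Pool.Agent.Helper65.TW.tors R (MvPolynomial (Fin N) R ⧸ Ideal.span {qp q}) ↔
        χ g = 0 := by
  classical
  let F : Type := FractionRing R
  have hF : CharZero F := IsFractionRing.charZero_of_isFractionRing R
  let q' : Matrix (Fin N) (Fin N) F := q.map (algebraMap R F)
  have hq' : q'.IsSymm := hq.map _
  have h3' : ∃ f g : Fin 3 → Fin N, (q'.submatrix f g).det ≠ 0 := by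
    obtain ⟨f, g, h⟩ := h3
    refine ⟨f, g, fun h0 => h ?_⟩
    apply IsFractionRing.injective R F
    rw [map_zero, ← h0, RingHom.map_det]
    rfl
  have hp : (Ideal.span {qp q'}).IsPrime := qp_prime q' hq' h3'
  let P : Type := MvPolynomial (Fin N) F ⧸ Ideal.span {qp q'}
  have hle : Ideal.span {qp q} ≤ (Ideal.span {qp q'}).comap (map (algebraMap R F)) := by
    rw [Ideal.span_singleton_le_iff_mem, Ideal.mem_comap, map_qp]
    exact Ideal.mem_span_singleton_self _
  let χ : (MvPolynomial (Fin N) R ⧸ Ideal.span {qp q}) →+* P :=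
    Ideal.quotientMap _ (map (algebraMap R F)) hle
  have hP : IsDomain P := Ideal.Quotient.isDomain _
  have hinj : ∀ c, χ (algebraMap R _ c) = 0 → c = 0 := by
    intro c h0
    have h1 : χ (algebraMap R _ c) = algebraMap F P (algebraMap R F c) := by
      change χ (Ideal.Quotient.mk _ (C c)) = _
      rw [Ideal.quotientMap_mk, map_C]
      rfl
    rw [h1] at h0
    have h2 : algebraMap R F c = 0 := by
      apply (algebraMap F P).injective
      rw [h0, map_zero]
    exact (map_eq_zero_iff _ (IsFractionRing.injective R F)).1 h2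
  refine ⟨P, inferInstance, hP, χ, hinj, fun g => ⟨?_, fun hg => ?_⟩⟩
  · rintro ⟨c, hc0, hcg⟩
    have h := hcg.map χ
    rw [Algebra.smul_def, map_mul] at h
    rcases mul_eq_zero.1 h.eq_zero with h1 | h1
    · exact absurd (hinj c h1) hc0
    · exact h1
  · obtain ⟨G, rfl⟩ := Ideal.Quotient.mk_surjective g
    have h1 : map (algebraMap R F) G ∈ Ideal.span {qp q'} := by
      rw [← Ideal.Quotient.eq_zero_iff_mem]
      exact hg
    rw [Ideal.mem_span_singleton] at h1
    obtain ⟨S, hS⟩ := h1
    -- clear denominators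
    obtain ⟨c, hc, S', hS'⟩ : ∃ c : R, c ≠ 0 ∧ ∃ S' : MvPolynomial (Fin N) R,
        map (algebraMap R F) S' = C (algebraMap R F c) * S := by
      let iA := algebraMvPolynomial (σ := Fin N) (R := R) (S := F)
      obtain ⟨⟨S', ⟨_, c, hc, rfl⟩⟩, h⟩ :=
        IsLocalization.surj ((nonZeroDivisors R).map (C (σ := Fin N))) S
      refine ⟨c, nonZeroDivisors.ne_zero hc, S', ?_⟩
      simp only [algebraMap_def, map_C] at h
      rw [← h, mul_comm]
    refine ⟨c, hc, ?_⟩
    have h2 : C c * G = qp q * S' := by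
      apply map_injective (algebraMap R F) (IsFractionRing.injective R F)
      rw [map_mul, map_mul, map_C, hS, hS', map_qp]
      ring
    have h3 : algebraMap R (MvPolynomial (Fin N) R ⧸ Ideal.span {qp q}) c *
        Ideal.Quotient.mk (Ideal.span {qp q}) G = 0 := by
      have h4 : algebraMap R (MvPolynomial (Fin N) R ⧸ Ideal.span {qp q}) c *
          Ideal.Quotient.mk (Ideal.span {qp q}) G =
          Ideal.Quotient.mk (Ideal.span {qp q}) (C c * G) := by
        rw [map_mul]
        rfl
      rw [h4, Ideal.Quotient.eq_zero_iff_mem, h2]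
      exact Ideal.mul_mem_right _ _ (Ideal.mem_span_singleton_self _)
    rw [Algebra.smul_def, h3]
    exact IsNilpotent.zero

/-- **Q1** the generic part of a quadric cone is a domain -/
theorem quad_tors_prime (q : Matrix (Fin N) (Fin N) R) (hq : q.IsSymm)
    (h3 : ∃ f g : Fin 3 → Fin N, (q.submatrix f g).det ≠ 0) :
    (Pool.Agent.Helper65.TW.tors R (MvPolynomial (Fin N) R ⧸ Ideal.span
      {∑ j, ∑ k, C (q j k) * X j * X k})).IsPrime := by
  obtain ⟨P, iP, dP, χ, -, h⟩ := quad_exists_generic q hq h3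
  have h1 : Pool.Agent.Helper65.TW.tors R (MvPolynomial (Fin N) R ⧸ Ideal.span {qp q}) =
      RingHom.ker χ := by
    ext g
    exact h g
  change (Pool.Agent.Helper65.TW.tors R (MvPolynomial (Fin N) R ⧸ Ideal.span {qp q})).IsPrime
  rw [h1]
  exact RingHom.ker_isPrime χ

theorem quad_algebraMap_injective (q : Matrix (Fin N) (Fin N) R) (hq : q.IsSymm)
    (h3 : ∃ f g : Fin 3 → Fin N, (q.submatrix f g).det ≠ 0) :
    Function.Injective (algebraMap R (Gen R (MvPolynomial (Fin N) R ⧸ Ideal.span
      {∑ j, ∑ k, C (q j k) * X j * X k}))) := by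
  obtain ⟨P, iP, dP, χ, hinj, h⟩ := quad_exists_generic q hq h3
  rw [injective_iff_map_eq_zero]
  intro c h0
  have h1 : algebraMap R (MvPolynomial (Fin N) R ⧸ Ideal.span {qp q}) c ∈
      Pool.Agent.Helper65.TW.tors R (MvPolynomial (Fin N) R ⧸ Ideal.span {qp q}) :=
    Ideal.Quotient.eq_zero_iff_mem.1 h0
  exact hinj c ((h _).1 h1)

end Ring

end Pool.Agent.Helper78.TW
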