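import Pool.Agent.Helper78.TW.Tors

/-!
# TOWERS, T5: generators of the ring of representations
-/

set_option autoImplicit false

namespace Pool.Agent.Helper78.TW

open MvPolynomial
open Pool.Agent.Helper35.BR

section Gen

variable {K R : Type} [Field K] [CommRing R] [Algebra K R] {r : ℕ}
  {A : Fin r → Type} [∀ i, Ring (A i)] [∀ i, Algebra R (A i)] (m : Fin r → ℕ)

open Classical in
/-- generators of the ring of representations: generators of `R` and the entries of the matrices
of module generators of the algebras -/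
noncomputable def genSet (G : Finset R) (T : ∀ i, Finset (A i)) : Finset (HomRing R A m) :=
  G.image (algebraMap R (HomRing R A m)) ∪
    (Finset.univ.sigma fun i => (T i) ×ˢ (Finset.univ : Finset (Fin (m i) × Fin (m i)))).image
      (cd R A m)

theorem algebraMap_mem_genSet {G : Finset R} (T : ∀ i, Finset (A i)) {c : R} (hc : c ∈ G) :
    algebraMap R (HomRing R A m) c ∈ genSet m G T := by
  classical
  exact Finset.mem_union_left _ (Finset.mem_image_of_mem _ hc)

theorem cd_mem_genSet (G : Finset R) {T : ∀ i, Finset (A i)} {i : Fin r} {a : A i} (ha : a ∈ T i)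
    (p q : Fin (m i)) : cd R A m ⟨i, a, p, q⟩ ∈ genSet m G T := by
  classical
  refine Finset.mem_union_right _ (Finset.mem_image_of_mem _ ?_)
  rw [Finset.mem_sigma]
  exact ⟨Finset.mem_univ _, Finset.mem_product.2 ⟨ha, Finset.mem_univ _⟩⟩

theorem mem_genSet {G : Finset R} {T : ∀ i, Finset (A i)} {x : HomRing R A m} :
    x ∈ genSet m G T ↔ (∃ c ∈ G, x = algebraMap R (HomRing R A m) c) ∨
      ∃ (i : Fin r) (a : A i) (_ : a ∈ T i) (p q : Fin (m i)), x = cd R A m ⟨i, a, p, q⟩ := by
  classical
  constructor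
  · intro hx
    rcases Finset.mem_union.1 hx with h | h
    · obtain ⟨c, hc, rfl⟩ := Finset.mem_image.1 h
      exact Or.inl ⟨c, hc, rfl⟩
    · obtain ⟨⟨i, a, p, q⟩, hv, rfl⟩ := Finset.mem_image.1 h
      rw [Finset.mem_sigma] at hv
      exact Or.inr ⟨i, a, (Finset.mem_product.1 hv.2).1, p, q, rfl⟩
  · rintro (⟨c, hc, rfl⟩ | ⟨i, a, ha, p, q, rfl⟩)
    · exact algebraMap_mem_genSet m T hc
    · exact cd_mem_genSet m G ha p q

/-- all coordinates are linear combinations over `R` of the chosen ones -/
theorem cd_mem_span {T : ∀ i, Finset (A i)}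
    (hT : ∀ i, Submodule.span R (T i : Set (A i)) = ⊤) (i : Fin r) (a : A i) (p q : Fin (m i)) :
    cd R A m ⟨i, a, p, q⟩ ∈ Submodule.span R {x : HomRing R A m | ∃ b ∈ T i,
      x = cd R A m ⟨i, b, p, q⟩} := by
  have ha : a ∈ Submodule.span R (T i : Set (A i)) := by rw [hT]; trivial
  have h0 : cd R A m ⟨i, a, p, q⟩ = univ R A m i a p q := rfl
  rw [h0]
  induction ha using Submodule.span_induction with
  | mem x hx => exact Submodule.subset_span ⟨x, hx, rfl⟩
  | zero => rw [map_zero]; exact Submodule.zero_mem _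
  | add x y _ _ hx hy =>
    rw [map_add, Matrix.add_apply]
    exact Submodule.add_mem _ (hx rfl) (hy rfl)
  | smul c x _ hx =>
    rw [(univ_over i).smul, Matrix.smul_apply, algebraMap_smul]
    exact Submodule.smul_mem _ c (hx rfl)

theorem adjoin_genSet (G : Finset R) (hG : Algebra.adjoin K (G : Set R) = ⊤)
    (T : ∀ i, Finset (A i)) (hT : ∀ i, Submodule.span R (T i : Set (A i)) = ⊤) :
    Algebra.adjoin K (genSet m G T : Set (HomRing R A m)) = ⊤ := by
  classical
  have h0 : ∀ c : R, algebraMap R (HomRing R A m) c ∈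
      Algebra.adjoin K (genSet m G T : Set (HomRing R A m)) := by
    intro c
    have hc : c ∈ Algebra.adjoin K (G : Set R) := by rw [hG]; trivial
    have h1 : (IsScalarTower.toAlgHom K R (HomRing R A m)) c ∈
        (Algebra.adjoin K (G : Set R)).map (IsScalarTower.toAlgHom K R (HomRing R A m)) :=
      ⟨c, hc, rfl⟩
    rw [AlgHom.map_adjoin] at h1
    refine Algebra.adjoin_mono ?_ h1
    rintro _ ⟨d, hd, rfl⟩
    exact Finset.mem_coe.2 (algebraMap_mem_genSet m T (Finset.mem_coe.1 hd))
  have h1 : ∀ v, cd R A m v ∈ Algebra.adjoin K (genSet m G T : Set (HomRing R A m)) := by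
    rintro ⟨i, a, p, q⟩
    have h2 := cd_mem_span m hT i a p q
    generalize cd R A m ⟨i, a, p, q⟩ = y at h2
    induction h2 using Submodule.span_induction with
    | mem x hx =>
      obtain ⟨b, hb, rfl⟩ := hx
      exact Algebra.subset_adjoin (Finset.mem_coe.2 (cd_mem_genSet m G hb p q))
    | zero => exact Subalgebra.zero_mem _
    | add x y _ _ hx hy => exact Subalgebra.add_mem _ hx hy
    | smul c x _ hx =>
      have h3 : c • x = algebraMap R (HomRing R A m) c * x := Algebra.smul_def c x
      rw [h3]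
      exact Subalgebra.mul_mem _ (h0 c) hx
  rw [eq_top_iff]
  rintro x -
  obtain ⟨f, rfl⟩ := Ideal.Quotient.mk_surjective x
  induction f using MvPolynomial.induction_on with
  | C c => exact h0 c
  | add p q hp hq => rw [map_add]; exact Subalgebra.add_mem _ hp hq
  | mul_X p v hp => rw [map_mul]; exact Subalgebra.mul_mem _ hp (h1 v)

open Classical in
/-- the same in a quotient -/
theorem adjoin_genSet_quotient (I : Ideal (HomRing R A m)) (G : Finset R)
    (hG : Algebra.adjoin K (G : Set R) = ⊤)
    (T : ∀ i, Finset (A i)) (hT : ∀ i, Submodule.span R (T i : Set (A i)) = ⊤) :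
    Algebra.adjoin K (((genSet m G T).image (Ideal.Quotient.mk I) : Finset (HomRing R A m ⧸ I)) :
      Set (HomRing R A m ⧸ I)) = ⊤ := by
  have h1 := congrArg (Subalgebra.map (Ideal.Quotient.mkₐ K I)) (adjoin_genSet m G hG T hT)
  rw [AlgHom.map_adjoin, Algebra.map_top] at h1
  rw [Finset.coe_image]
  refine h1.trans ?_
  rw [AlgHom.range_eq_top]
  exact Ideal.Quotient.mk_surjective

end Gen

section Points

variable {K R : Type} [Field K] [CommRing R] [IsDomain R] [Algebra K R]

/-- points of `H` over points of `R` outside the bound of the torsion ideal are points of the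
quotient -/
theorem exists_lift_tors {H L : Type} [CommRing H] [Algebra R H] [Algebra K H]
    [IsScalarTower K R H] [Field L] [Algebra K L] {δ : R}
    (hδ : ∀ g ∈ tors R H, IsNilpotent (g * algebraMap R H δ)) (χ : H →ₐ[K] L)
    (hχ : χ (algebraMap R H δ) ≠ 0) :
    ∃ χ' : (H ⧸ tors R H) →ₐ[K] L, ∀ x, χ' (Ideal.Quotient.mk _ x) = χ x :=
  ⟨Ideal.Quotient.liftₐ _ χ fun g hg => map_tors (χ : H →+* L) hχ (hδ g hg),
    fun _ => rfl⟩

end Points

end Pool.Agent.Helper78.TW
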