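import Pool.Agent.Helper65.TW.Defs
import Pool.Agent.Helper78.TW.Gen

/-!
# TOWERS, T5: the statements for the ideal `Helper65.TW.tors`
-/

set_option autoImplicit false

namespace Pool.Agent.Helper78.TW

open TensorProduct
open Pool.Agent.Helper35.BR
open Pool.Agent.Helper65.TW (Gen)

theorem tors_eq (R B : Type) [CommRing R] [IsDomain R] [CommRing B] [Algebra R B] :
    Pool.Agent.Helper65.TW.tors R B = tors R B := by
  ext g
  constructor
  · rintro ⟨c, hc, h⟩
    refine ⟨c, hc, ?_⟩
    rwa [Algebra.smul_def, mul_comm] at h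
  · rintro ⟨c, hc, h⟩
    refine ⟨c, hc, ?_⟩
    rwa [Algebra.smul_def, mul_comm]

theorem map_tors65 {R H F : Type} [CommRing R] [IsDomain R] [CommRing H] [Algebra R H] [Field F]
    (χ : H →+* F) {g : H} {c : R} (hχ : χ (algebraMap R H c) ≠ 0)
    (hg : IsNilpotent (c • g)) : χ g = 0 := by
  refine map_tors χ hχ ?_
  rwa [mul_comm, ← Algebra.smul_def]

section Hom

variable {R : Type} [CommRing R] [IsDomain R] {r : ℕ}
  (A : Fin r → Type) [∀ i, Ring (A i)] [∀ i, Algebra R (A i)] [∀ i, Module.Finite R (A i)]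
  (m : Fin r → ℕ)

/-- **T5 (1)** -/
theorem tors_prime
    (hc : ∀ i, Algebra.IsCentral (FractionRing R) (FractionRing R ⊗[R] A i))
    (hs : ∀ i, IsSimpleRing (FractionRing R ⊗[R] A i))
    (hm : ∀ i, Module.finrank (FractionRing R) (FractionRing R ⊗[R] A i) = m i ^ 2) :
    (Pool.Agent.Helper65.TW.tors R (HomRing R A m)).IsPrime := by
  rw [tors_eq]
  exact tors_isPrime A m hc hs hm

/-- **T5 (1')** -/
theorem gen_isDomain
    (hc : ∀ i, Algebra.IsCentral (FractionRing R) (FractionRing R ⊗[R] A i))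
    (hs : ∀ i, IsSimpleRing (FractionRing R ⊗[R] A i))
    (hm : ∀ i, Module.finrank (FractionRing R) (FractionRing R ⊗[R] A i) = m i ^ 2) :
    IsDomain (Gen R (HomRing R A m)) := by
  have := tors_prime A m hc hs hm
  exact Ideal.Quotient.isDomain _

/-- **T5 (2)** -/
theorem algebraMap_gen_injective
    (hc : ∀ i, Algebra.IsCentral (FractionRing R) (FractionRing R ⊗[R] A i))
    (hs : ∀ i, IsSimpleRing (FractionRing R ⊗[R] A i))
    (hm : ∀ i, Module.finrank (FractionRing R) (FractionRing R ⊗[R] A i) = m i ^ 2) :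
    Function.Injective (algebraMap R (Gen R (HomRing R A m))) := by
  obtain ⟨F, iF, χ, hinj, h⟩ := exists_generic A m hc hs hm
  rw [injective_iff_map_eq_zero]
  intro c h0
  have h1 : algebraMap R (HomRing R A m) c ∈ Pool.Agent.Helper65.TW.tors R (HomRing R A m) :=
    Ideal.Quotient.eq_zero_iff_mem.1 h0
  rw [tors_eq] at h1
  exact hinj (((h _).1 h1).trans (map_zero _).symm)

end Hom

/-- **T5 (3)** one denominator is enough for the whole ideal -/
theorem exists_bound65 {R H : Type} [CommRing R] [IsDomain R] [IsNoetherianRing R] [CommRing H]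
    [Algebra R H] [Algebra.FiniteType R H] :
    ∃ δ : R, δ ≠ 0 ∧ ∀ g ∈ Pool.Agent.Helper65.TW.tors R H, IsNilpotent (δ • g) := by
  obtain ⟨δ, hδ, h⟩ := exists_bound (R := R) (H := H)
  refine ⟨δ, hδ, fun g hg => ?_⟩
  rw [tors_eq] at hg
  rw [Algebra.smul_def, mul_comm]
  exact h g hg

/-- **T5 (3')** points outside the bound are points of the generic part -/
theorem exists_lift_gen {K R H L : Type} [Field K] [CommRing R] [IsDomain R] [Algebra K R]
    [CommRing H] [Algebra R H] [Algebra K H] [IsScalarTower K R H] [Field L] [Algebra K L] {δ : R}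
    (hδ : ∀ g ∈ Pool.Agent.Helper65.TW.tors R H, IsNilpotent (δ • g)) (χ : H →ₐ[K] L)
    (hχ : χ (algebraMap R H δ) ≠ 0) :
    ∃ χ' : Gen R H →ₐ[K] L, ∀ x, χ' (Ideal.Quotient.mk _ x) = χ x :=
  ⟨Ideal.Quotient.liftₐ _ χ fun g hg => map_tors65 (χ : H →+* L) hχ (hδ g hg),
    fun _ => rfl⟩

open Classical in
/-- **T5 (4)** generators of the generic part -/
theorem adjoin_gen {K R : Type} [Field K] [CommRing R] [IsDomain R] [Algebra K R] {r : ℕ}
    {A : Fin r → Type} [∀ i, Ring (A i)] [∀ i, Algebra R (A i)] (m : Fin r → ℕ) (G : Finset R)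
    (hG : Algebra.adjoin K (G : Set R) = ⊤)
    (T : ∀ i, Finset (A i)) (hT : ∀ i, Submodule.span R (T i : Set (A i)) = ⊤) :
    Algebra.adjoin K (((genSet m G T).image (Ideal.Quotient.mk _) :
      Finset (Gen R (HomRing R A m))) : Set (Gen R (HomRing R A m))) = ⊤ :=
  adjoin_genSet_quotient m _ G hG T hT

end Pool.Agent.Helper78.TW
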