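import Pool.Agent.Helper35.BR.End


/-!
# TOWERS, T5: the torsion ideal of the ring of representations is prime
-/

set_option autoImplicit false

namespace Pool.Agent.Helper78.TW

open MvPolynomial TensorProduct
open Pool.Agent.Helper35.BR Pool.Agent.Helper98.BR Pool.Agent.Helper66.BR

/-- the elements of `H` which are nilpotent after multiplication by a nonzero element of `R` -/
def tors (R H : Type) [CommRing R] [IsDomain R] [CommRing H] [Algebra R H] : Ideal H where
  carrier := {g | ∃ c : R, c ≠ 0 ∧ IsNilpotent (g * algebraMap R H c)}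
  zero_mem' := ⟨1, one_ne_zero, by rw [zero_mul]; exact IsNilpotent.zero⟩
  add_mem' := by
    rintro a b ⟨c, hc, ha⟩ ⟨d, hd, hb⟩
    refine ⟨c * d, mul_ne_zero hc hd, ?_⟩
    rw [map_mul, add_mul]
    refine (Commute.all _ _).isNilpotent_add ?_ ?_
    · rw [← mul_assoc]
      exact (Commute.all _ _).isNilpotent_mul_right ha
    · rw [mul_comm (algebraMap R H c), ← mul_assoc]
      exact (Commute.all _ _).isNilpotent_mul_right hb
  smul_mem' := by
    rintro x a ⟨c, hc, ha⟩
    refine ⟨c, hc, ?_⟩
    rw [smul_eq_mul, mul_assoc]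
    exact (Commute.all _ _).isNilpotent_mul_left ha

theorem mem_tors {R H : Type} [CommRing R] [IsDomain R] [CommRing H] [Algebra R H] {g : H} :
    g ∈ tors R H ↔ ∃ c : R, c ≠ 0 ∧ IsNilpotent (g * algebraMap R H c) := Iff.rfl

/-- a homomorphism to a field which is injective on `R` kills the torsion ideal -/
theorem map_tors {R H F : Type} [CommRing R] [IsDomain R] [CommRing H] [Algebra R H] [Field F]
    (χ : H →+* F) {g : H} {c : R} (hχ : χ (algebraMap R H c) ≠ 0)
    (hg : IsNilpotent (g * algebraMap R H c)) : χ g = 0 := by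
  have h := hg.map χ
  rw [map_mul] at h
  exact (mul_eq_zero.1 h.eq_zero).resolve_right hχ

/-- an element outside the torsion ideal does not vanish at a geometric point which is injective
on `R` -/
theorem exists_generic_point {R H : Type} [CommRing R] [IsDomain R] [CommRing H] [Algebra R H]
    {g : H} (hg : g ∉ tors R H) :
    ∃ (Ω : Type) (_ : Field Ω) (_ : IsAlgClosed Ω) (χ : H →+* Ω), χ g ≠ 0 ∧
      Function.Injective (χ.comp (algebraMap R H)) := by
  let M : Submonoid H := Submonoid.powers g ⊔ (nonZeroDivisors R).map (algebraMap R H)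
  have hM : (0 : H) ∉ M := by
    intro h0
    obtain ⟨x, hx, y, hy, hxy⟩ := Submonoid.mem_sup.1 h0
    obtain ⟨n, rfl⟩ := hx
    obtain ⟨c, hc, rfl⟩ := hy
    have hc0 : c ≠ 0 := nonZeroDivisors.ne_zero hc
    refine hg ⟨c, hc0, n + 1, ?_⟩
    have h2 : (g * algebraMap R H c) ^ (n + 1) =
        (g ^ n * algebraMap R H c) * (g * (algebraMap R H c) ^ n) := by ring
    rw [h2]
    have h3 : g ^ n * algebraMap R H c = 0 := hxy
    rw [h3, zero_mul]
  obtain ⟨q, hq, -, hqM⟩ := Ideal.exists_le_prime_disjoint (⊥ : Ideal H) M (by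
    rw [Set.disjoint_left]
    intro x hx hxM
    have hx0 : x = 0 := hx
    rw [hx0] at hxM
    exact hM hxM)
  rw [Set.disjoint_left] at hqM
  refine ⟨AlgebraicClosure (FractionRing (H ⧸ q)), inferInstance, inferInstance,
    (algebraMap (FractionRing (H ⧸ q)) (AlgebraicClosure (FractionRing (H ⧸ q)))).comp
      ((algebraMap (H ⧸ q) (FractionRing (H ⧸ q))).comp (Ideal.Quotient.mk q)), ?_, ?_⟩
  · intro h0
    refine hqM (Ideal.Quotient.eq_zero_iff_mem.1 ?_)
      (Submonoid.mem_sup_left (Submonoid.mem_powers g))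
    apply IsFractionRing.injective (H ⧸ q) (FractionRing (H ⧸ q))
    apply (algebraMap (FractionRing (H ⧸ q)) (AlgebraicClosure (FractionRing (H ⧸ q)))).injective
    rw [map_zero, map_zero]
    exact h0
  · rw [injective_iff_map_eq_zero]
    intro c hc
    by_contra hc0
    refine hqM (Ideal.Quotient.eq_zero_iff_mem.1 ?_)
      (Submonoid.mem_sup_right ⟨c, mem_nonZeroDivisors_of_ne_zero hc0, rfl⟩)
    apply IsFractionRing.injective (H ⧸ q) (FractionRing (H ⧸ q))
    apply (algebraMap (FractionRing (H ⧸ q)) (AlgebraicClosure (FractionRing (H ⧸ q)))).injective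
    rw [map_zero, map_zero]
    exact hc

section Hom

variable {R : Type} [CommRing R] [IsDomain R] {r : ℕ}
  (A : Fin r → Type) [∀ i, Ring (A i)] [∀ i, Algebra R (A i)] [∀ i, Module.Finite R (A i)]
  (m : Fin r → ℕ)

/-- **the torsion ideal is the kernel of a homomorphism to a field** which is injective on `R` -/
theorem exists_generic
    (hc : ∀ i, Algebra.IsCentral (FractionRing R) (FractionRing R ⊗[R] A i))
    (hs : ∀ i, IsSimpleRing (FractionRing R ⊗[R] A i))
    (hm : ∀ i, Module.finrank (FractionRing R) (FractionRing R ⊗[R] A i) = m i ^ 2) :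
    ∃ (F : Type) (_ : Field F) (χ : HomRing R A m →+* F),
      Function.Injective (χ.comp (algebraMap R (HomRing R A m))) ∧
      ∀ g, g ∈ tors R (HomRing R A m) ↔ χ g = 0 := by
  classical
  choose e δ1 ρ0 hδ1 hρ0 hspan hdet using fun i => generic_split (A i) (m i) (hc i) (hs i) (hm i)
  let E : Type := AlgebraicClosure (FractionRing R)
  let P : Type := MvPolynomial (Σ i : Fin r, Fin (m i) × Fin (m i)) E
  let F : Type := FractionRing P
  let ψ0 : E →+* F := (algebraMap P F).comp (C : E →+* P)
  -- the generic matrices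
  have hU : ∀ i, IsUnit ((Matrix.of fun p q => algebraMap P F (X ⟨i, p, q⟩)) :
      Matrix (Fin (m i)) (Fin (m i)) F) := by
    intro i
    rw [Matrix.isUnit_iff_isUnit_det]
    refine IsUnit.mk0 _ fun h0 => ?_
    have h1 : ((Matrix.of fun p q => algebraMap P F (X ⟨i, p, q⟩)) :
        Matrix (Fin (m i)) (Fin (m i)) F) =
        (algebraMap P F).mapMatrix (Matrix.of fun p q => (X ⟨i, p, q⟩ : P)) := by
      ext p q
      rfl
    rw [h1, ← RingHom.map_det] at h0
    have h2 : (Matrix.of fun p q => (X ⟨i, p, q⟩ : P)).det = 0 := by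
      apply IsFractionRing.injective P F
      rw [h0, map_zero]
    -- evaluate at the identity matrices
    let ev1 : P →+* E := eval₂Hom (RingHom.id E) fun v =>
      (1 : Matrix (Fin (m v.1)) (Fin (m v.1)) E) v.2.1 v.2.2
    have h3 := congrArg ev1 h2
    rw [RingHom.map_det, map_zero] at h3
    have h4 : ev1.mapMatrix (Matrix.of fun p q => (X ⟨i, p, q⟩ : P)) =
        (1 : Matrix (Fin (m i)) (Fin (m i)) E) := by
      ext p q
      rw [RingHom.mapMatrix_apply, Matrix.map_apply, Matrix.of_apply]
      exact eval₂Hom_X' _ _ _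
    rw [h4, Matrix.det_one] at h3
    exact one_ne_zero h3
  let U : ∀ i, (Matrix (Fin (m i)) (Fin (m i)) F)ˣ := fun i => (hU i).unit
  have hUv : ∀ i, (U i : Matrix (Fin (m i)) (Fin (m i)) F) =
      Matrix.of fun p q => algebraMap P F (X ⟨i, p, q⟩) := fun i => rfl
  let χ : HomRing R A m →+* F := lift (ψ0.comp (algebraMap R E))
    (fun i => (conj (U i)).comp (ψ0.mapMatrix.comp (ρ0 i)))
    (fun i => ((hρ0 i).comp ψ0).conj (U i))
  have hinjE : Function.Injective (algebraMap R E) := by
    rw [IsScalarTower.algebraMap_eq R (FractionRing R) E]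
    exact (algebraMap (FractionRing R) E).injective.comp (IsFractionRing.injective R _)
  have hχR : ∀ c, χ (algebraMap R (HomRing R A m) c) = ψ0 (algebraMap R E c) := fun c =>
    lift_algebraMap _ _ _ c
  have hinj : Function.Injective (χ.comp (algebraMap R (HomRing R A m))) := by
    rw [injective_iff_map_eq_zero]
    intro c h0
    have h1 : ψ0 (algebraMap R E c) = 0 := (hχR c).symm.trans h0
    exact hinjE ((ψ0.injective (h1.trans (map_zero ψ0).symm)).trans (map_zero _).symm)
  refine ⟨F, inferInstance, χ, hinj, fun g => ⟨?_, fun hg => ?_⟩⟩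
  · rintro ⟨c, hc0, hgc⟩
    refine map_tors χ (fun h0 => hc0 ?_) hgc
    exact hinj (h0.trans (map_zero _).symm)
  · by_contra hgt
    obtain ⟨Ω, iΩ, hΩ, χ', hχg, hinj'⟩ := exists_generic_point hgt
    set φ : R →+* Ω := χ'.comp (algebraMap R (HomRing R A m)) with hφ
    -- extend to the algebraic closure
    let φF : FractionRing R →+* Ω := IsFractionRing.lift hinj'
    let iA : Algebra (FractionRing R) Ω := φF.toAlgebra
    let ψ : E →+* Ω := (IsAlgClosed.lift : E →ₐ[FractionRing R] Ω)
    have hψ : ψ.comp (algebraMap R E) = φ := by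
      ext c
      have h1 : ψ (algebraMap (FractionRing R) E (algebraMap R (FractionRing R) c)) =
          φF (algebraMap R (FractionRing R) c) :=
        (IsAlgClosed.lift : E →ₐ[FractionRing R] Ω).commutes _
      rw [RingHom.comp_apply, IsScalarTower.algebraMap_apply R (FractionRing R) E, h1]
      exact IsFractionRing.lift_algebraMap hinj' c
    have hex : ∀ i, ∃ u : (Matrix (Fin (m i)) (Fin (m i)) Ω)ˣ,
        χ'.mapMatrix.comp (univ R A m i) = (conj u).comp (ψ.mapMatrix.comp (ρ0 i)) := by
      intro i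
      refine skolem φ (e i) (fun a => ?_) (ψ.mapMatrix.comp (ρ0 i))
        (χ'.mapMatrix.comp (univ R A m i)) ?_ ((univ_over i).comp χ') ?_
      · obtain ⟨c, hc⟩ := hspan i a
        refine ⟨δ1 i, c, fun h0 => hδ1 i ?_, hc⟩
        exact hinj' (h0.trans (map_zero _).symm)
      · rw [← hψ]
        exact (hρ0 i).comp ψ
      · intro h0
        apply hdet i
        apply ψ.injective
        rw [map_zero, ← h0, RingHom.map_det]
        rfl
    choose u hu using hex
    obtain ⟨k, G, hG⟩ := conj_poly ρ0 hρ0 g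
    have h1 := hG Ω ψ u
    have h2 : lift (ψ.comp (algebraMap R E)) (fun i => (conj (u i)).comp (ψ.mapMatrix.comp (ρ0 i)))
        (fun i => ((hρ0 i).comp ψ).conj (u i)) g = χ' g := by
      conv_rhs => rw [eq_lift χ']
      exact lift_congr _ _ hψ (fun i => (hu i).symm) g
    rw [h2] at h1
    have hdu : ∀ i, (u i : Matrix (Fin (m i)) (Fin (m i)) Ω).det ≠ 0 := fun i =>
      ((Matrix.isUnit_iff_isUnit_det _).1 (u i).isUnit).ne_zero
    have hG0 : G ≠ 0 := by
      intro h0
      rw [h0, eval₂_zero] at h1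
      rcases mul_eq_zero.1 h1.symm with h3 | h3
      · exact Finset.prod_ne_zero_iff.2 (fun i _ => hdu i) (eq_zero_of_pow_eq_zero h3)
      · exact hχg h3
    have h3 := hG F ψ0 U
    have h4 : eval₂ ψ0 (fun v => (U v.1 : Matrix (Fin (m v.1)) (Fin (m v.1)) F) v.2.1 v.2.2) G =
        algebraMap P F G := by
      have h5 : (eval₂Hom ψ0 (fun v => (U v.1 : Matrix (Fin (m v.1)) (Fin (m v.1)) F) v.2.1 v.2.2) :
          P →+* F) = algebraMap P F := by
        apply MvPolynomial.ringHom_ext
        · intro c
          exact eval₂Hom_C _ _ _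
        · intro v
          exact eval₂Hom_X' _ _ _
      exact DFunLike.congr_fun h5 G
    rw [h4] at h3
    have h6 : χ g = 0 := hg
    have h7 : algebraMap P F G = 0 := by
      rw [h3]
      exact mul_eq_zero_of_right _ h6
    exact hG0 (IsFractionRing.injective P F (h7.trans (map_zero _).symm))

theorem tors_isPrime
    (hc : ∀ i, Algebra.IsCentral (FractionRing R) (FractionRing R ⊗[R] A i))
    (hs : ∀ i, IsSimpleRing (FractionRing R ⊗[R] A i))
    (hm : ∀ i, Module.finrank (FractionRing R) (FractionRing R ⊗[R] A i) = m i ^ 2) :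
    (tors R (HomRing R A m)).IsPrime := by
  obtain ⟨F, iF, χ, -, h⟩ := exists_generic A m hc hs hm
  have h1 : tors R (HomRing R A m) = RingHom.ker χ := by
    ext g
    exact h g
  rw [h1]
  exact RingHom.ker_isPrime χ

theorem algebraMap_tors_injective
    (hc : ∀ i, Algebra.IsCentral (FractionRing R) (FractionRing R ⊗[R] A i))
    (hs : ∀ i, IsSimpleRing (FractionRing R ⊗[R] A i))
    (hm : ∀ i, Module.finrank (FractionRing R) (FractionRing R ⊗[R] A i) = m i ^ 2) :
    Function.Injective (algebraMap R (HomRing R A m ⧸ tors R (HomRing R A m))) := by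
  obtain ⟨F, iF, χ, hinj, h⟩ := exists_generic A m hc hs hm
  rw [injective_iff_map_eq_zero]
  intro c h0
  have h1 : algebraMap R (HomRing R A m) c ∈ tors R (HomRing R A m) :=
    Ideal.Quotient.eq_zero_iff_mem.1 h0
  exact hinj (((h _).1 h1).trans (map_zero _).symm)

end Hom

/-- one denominator is enough for the whole torsion ideal -/
theorem exists_bound {R H : Type} [CommRing R] [IsDomain R] [IsNoetherianRing R] [CommRing H]
    [Algebra R H] [Algebra.FiniteType R H] :
    ∃ δ : R, δ ≠ 0 ∧ ∀ g ∈ tors R H, IsNilpotent (g * algebraMap R H δ) := by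
  classical
  have hN : IsNoetherianRing H := Algebra.FiniteType.isNoetherianRing R H
  obtain ⟨T, hT⟩ := (IsNoetherian.noetherian (tors R H) : (tors R H).FG)
  have h1 : ∀ x : T, ∃ c : R, c ≠ 0 ∧ IsNilpotent ((x : H) * algebraMap R H c) := by
    intro x
    have hx : (x : H) ∈ tors R H := by
      rw [← hT]
      exact Submodule.subset_span x.2
    exact hx
  choose c hc0 hc using h1
  refine ⟨∏ x, c x, Finset.prod_ne_zero_iff.2 fun x _ => hc0 x, fun g hg => ?_⟩
  rw [← hT] at hg
  induction hg using Submodule.span_induction with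
  | mem x hx =>
    rw [← Finset.mul_prod_erase Finset.univ c (Finset.mem_univ ⟨x, hx⟩), map_mul, ← mul_assoc]
    exact (Commute.all _ _).isNilpotent_mul_right (hc ⟨x, hx⟩)
  | zero => rw [zero_mul]; exact IsNilpotent.zero
  | add x y _ _ hx hy =>
    rw [add_mul]
    exact (Commute.all _ _).isNilpotent_add hx hy
  | smul a x _ hx =>
    rw [smul_eq_mul, mul_assoc]
    exact (Commute.all _ _).isNilpotent_mul_left hx

end Pool.Agent.Helper78.TW
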